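import Pool.Agent.Q131.Snk.Oct
import Pool.Agent.Q131.Snk.J8

/-!
MP_e680c3_co, Q1: shortest-path triangulations of the sphere with an uncrossed great circle.

`IsSPT G v` (`Pool/Agent/Helper479/Sink/Defs.lean`): `v` is a shortest-path triangulation of the
unit sphere with underlying graph `G` on `n ≥ 4` vertices (with `3n - 6` edges and all faces
bounded by 3-cycles; hemispherical and larger faces are allowed).  `Crosses w e`
(`Pool/Agent/Q131/Snk/Hemi.lean`): the set `e` has points strictly on both sides of the great
circle orthogonal to `w`.  `Sinkable` (`Pool/Agent/Q131/Snk/Defs.lean`): some continuous family of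
shortest-path embeddings of `G` that starts at `v` and keeps every vertex on its own longitude ends
with all vertices strictly below the equator.
-/

namespace Pool.Agent.Results.MP_e680c3_co.UncrossedCircle

open Pool.Agent.Q131.Snk
open Helper479.Sink (IsSPT skeleton arc NonPolar)

/-- If some great circle is crossed by no edge of the shortest-path triangulation `v`, then `v` is
sinkable if and only if the north pole lies on no edge of `v`; and there is a shortest-path
triangulation (an octahedron with the north pole on an edge) with an uncrossed great circle that is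
not sinkable. -/
theorem result :
    (∀ (n : ℕ) (G : SimpleGraph (Fin n)) (v : Fin n → Fin 3 → ℝ) (w : Fin 3 → ℝ),
      IsSPT G v → G.Connected → (∀ i, NonPolar (v i)) → w ≠ 0 →
      (∀ i j, G.Adj i j → ¬ Crosses w (arc (v i) (v j))) →
      (Sinkable G v ↔ north ∉ skeleton G v)) ∧
    (∃ (G : SimpleGraph (Fin 6)) (v : Fin 6 → Fin 3 → ℝ) (w : Fin 3 → ℝ),
      IsSPT G v ∧ G.Connected ∧ (∀ i, NonPolar (v i)) ∧ w ≠ 0 ∧
      (∀ i j, G.Adj i j → ¬ Crosses w (arc (v i) (v j))) ∧ ¬ Sinkable G v) :=
  ⟨fun _ _ _ _ hv hG hu hw hun => circle_sink J8.job8 hv hG hu hw hun, oct⟩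

end Pool.Agent.Results.MP_e680c3_co.UncrossedCircle
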